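import Mathlib
import Pool.Agent.H.MP_7b70e8_gt.B

set_option autoImplicit false

namespace Pool.Agent.Results.MP_b17faa_gt.Pairs

open Set Cardinal Pool.Agent.H.MP_9c4169_gt Pool.Agent.H.MP_f722f0_gt Pool.Agent.H.MP_7b70e8_gt

/-- The 22 properties, numbered as in the problem. -/
def P (i : Fin 22) (X : Set ℝ) : Prop :=
  ![S1 (Ga (Op X)) (Ga (Op X)), S1 (Ga (Op X)) (Ta (Op X)), S1 (Ga (Op X)) (Om (Op X)),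
    S1 (Ga (Op X)) (Cov (Op X)), S1 (Ta (Op X)) (Ga (Op X)), S1 (Ta (Op X)) (Ta (Op X)),
    S1 (Ta (Op X)) (Om (Op X)), S1 (Ta (Op X)) (Cov (Op X)), S1 (Om (Op X)) (Ga (Op X)),
    S1 (Om (Op X)) (Ta (Op X)), S1 (Om (Op X)) (Om (Op X)), S1 (Cov (Op X)) (Cov (Op X)),
    Sfin (Ga (Op X)) (Ta (Op X)), Sfin (Ga (Op X)) (Om (Op X)), Sfin (Ta (Op X)) (Ta (Op X)),
    Sfin (Ta (Op X)) (Om (Op X)), Sfin (Om (Op X)) (Ta (Op X)), Sfin (Om (Op X)) (Om (Op X)),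
    Ufin (Ga (Op X)) (Ga (Op X)), Ufin (Ga (Op X)) (Ta (Op X)), Ufin (Ga (Op X)) (Om (Op X)),
    Ufin (Ga (Op X)) (Cov (Op X))] i

theorem result :
    (∀ X : Set ℝ, X.Nonempty → (P 1 X → P 0 X ∧ P 18 X) ∧ (P 5 X → P 0 X ∧ P 4 X ∧ P 18 X) ∧
      (P 9 X → P 0 X ∧ P 4 X ∧ P 8 X ∧ P 18 X)) ∧
    (continuum = (aleph 1 : Cardinal.{0}) →
      (∃ X : Set ℝ, X.Nonempty ∧ (P 4 X ∧ P 5 X ∧ P 6 X ∧ P 7 X ∧ P 14 X ∧ P 15 X) ∧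
        ¬ P 10 X ∧ ¬ P 11 X ∧ ¬ P 17 X) ∧
      ∃ X : Set ℝ, X.Nonempty ∧ (P 12 X ∧ P 14 X ∧ P 16 X) ∧
        ¬ P 0 X ∧ ¬ P 1 X ∧ ¬ P 4 X ∧ ¬ P 5 X ∧ ¬ P 8 X ∧ ¬ P 9 X ∧ ¬ P 18 X) := by
  have k1 : ∀ X : Set ℝ, S1 (Ga (Op X)) (Ta (Op X)) → S1 (Ga (Op X)) (Ga (Op X)) := fun X h 𝒰 h𝒰 =>
    ((sel_ig (ggo subset_rfl h) (fun n => (h𝒰 n).1.1) fun n => ga_en (h𝒰 n)).ga
      fun n => (h𝒰 n).1).imp fun _ h => ⟨h.1, h.2.1⟩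
  refine ⟨fun X hX => ?_, fun ch => ⟨?_, ?_⟩⟩
  · have := hX.to_subtype
    have k2 : S1 (Ta (Op X)) (Ta (Op X)) → S1 (Ta (Op X)) (Ga (Op X)) := fun h 𝒰 h𝒰 =>
      ((sel_it (ggo ga_ta h) (hto h) (fun n => (h𝒰 n).1.1) fun n => ta_op (h𝒰 n)).ga
        fun n => (h𝒰 n).1).imp fun _ h => ⟨h.1, h.2.1⟩
    have k3 : S1 (Om (Op X)) (Ta (Op X)) → S1 (Om (Op X)) (Ga (Op X)) := fun h 𝒰 h𝒰 =>
      ((sel_om h (hto' h) h𝒰).ga fun n => (h𝒰 n).1).imp fun _ h => ⟨h.1, h.2.1⟩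
    exact ⟨fun h => ⟨k1 X h, (k1 X h).ufin⟩,
      fun h => ⟨(k2 h).mono ga_ta subset_rfl, k2 h, ((k2 h).mono ga_ta subset_rfl).ufin⟩,
      fun h => ⟨(k3 h).mono ga_om subset_rfl, (k3 h).mono ta_om subset_rfl, k3 h,
        ((k3 h).mono ga_om subset_rfl).ufin⟩⟩
  · obtain ⟨Y, h0, h1, h2, h3, -⟩ := key' ch
    exact ⟨Y, h0, ⟨h1, h1.mono subset_rfl ga_ta, h1.mono subset_rfl ga_om,
      h1.mono subset_rfl fun _ h => h.1, (h1.mono subset_rfl ga_ta).fin,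
      (h1.mono subset_rfl ga_om).fin⟩, fun h => h3 (S1.fin h), h2, h3⟩
  · obtain ⟨Z, h0, h1, -, -, h2, -⟩ := H.MP_7b70e8_gt.key ch
    have := h0.to_subtype
    have h3 : ¬ S1 (Ga (Op Z)) (Ta (Op Z)) := fun h => h2 (k1 Z h).ufin
    exact ⟨Z, h0, ⟨h1.mono ga_om subset_rfl, h1.mono ta_om subset_rfl, h1⟩,
      fun h => h2 (S1.ufin h), h3, fun h => h3 (S1.mono h ga_ta ga_ta),
      fun h => h3 (S1.mono h ga_ta subset_rfl), fun h => h3 (S1.mono h ga_om ga_ta),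
      fun h => h3 (S1.mono h ga_om subset_rfl), h2⟩

end Pool.Agent.Results.MP_b17faa_gt.Pairs
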